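import Pool.Agent.Lib.MP_a18d4e_ag.Small

/-!
An explicit family of positive tensors all of whose singular tuples are real.
-/

set_option autoImplicit false

namespace Pool.Agent.Results.MP_a18d4e_ag.LexTensor

open Finset

/-- The contraction of `T` with every `x i`, `i ≠ k`. -/
noncomputable def contr {d : ℕ} {n : Fin d → ℕ} (T : (∀ i, Fin (n i + 1)) → ℝ)
    (x : ∀ i, Fin (n i + 1) → ℂ) (k : Fin d) : Fin (n k + 1) → ℂ :=
  fun j => ∑ ι ∈ univ.filter (fun ι : ∀ i, Fin (n i + 1) => ι k = j),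
    (T ι : ℂ) * ∏ i ∈ univ.erase k, x i (ι i)

/-- The value `T(x_1, …, x_d)` of the multilinear form. -/
noncomputable def form {d : ℕ} {n : Fin d → ℕ} (T : (∀ i, Fin (n i + 1)) → ℝ)
    (x : ∀ i, Fin (n i + 1) → ℂ) : ℂ :=
  ∑ ι : ∀ i, Fin (n i + 1), (T ι : ℂ) * ∏ i, x i (ι i)

/-- The singular tuples of `T`, as points of the product of complex projective spaces. -/
def singTuples {d : ℕ} {n : Fin d → ℕ} (T : (∀ i, Fin (n i + 1)) → ℝ) :
    Set (∀ i, Projectivization ℂ (Fin (n i + 1) → ℂ)) :=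
  {P | ∀ k, ∃ l : ℂ, contr T (fun i => (P i).rep) k = l • (P k).rep}

/-- A point of complex projective space is real if it has real homogeneous coordinates. -/
def IsRealPt {m : ℕ} (P : Projectivization ℂ (Fin m → ℂ)) : Prop :=
  ∃ (v : Fin m → ℝ) (h : (fun j => (v j : ℂ)) ≠ 0), P = Projectivization.mk ℂ _ h

/-- The tensor whose entry at `ι` is `t ^ 2 ^ r`, where `r` is the number of multi-indices that
precede `ι` in the lexicographic order. -/
noncomputable def lexT {d : ℕ} (n : Fin d → ℕ) (t : ℝ) (ι : ∀ i, Fin (n i + 1)) : ℝ :=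
  t ^ 2 ^ Nat.card {κ : ∀ i, Fin (n i + 1) // ∃ s, (∀ r, r < s → κ r = ι r) ∧ κ s < ι s}

open Pool.Agent.Lib.MP_a18d4e_ag

theorem contr_eq {d : ℕ} (n : Fin d → ℕ) (t : ℝ) (x : ∀ i, Fin (n i + 1) → ℂ) (k : Fin d)
    (j : Fin (n k + 1)) :
    contr (lexT n t) x k j = Dsum n (fun ι => (t : ℂ) ^ om n ι) (ext x) k j := by
  rw [← sum_words, contr, Finset.sum_filter]
  refine Finset.sum_congr rfl fun ι _ => ?_
  rw [lexT, om, rank_eq, Complex.ofReal_pow]

theorem mem_iff {d : ℕ} (n : Fin d → ℕ) (t : ℝ)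
    (P : ∀ i, Projectivization ℂ (Fin (n i + 1) → ℂ)) :
    P ∈ singTuples (lexT n t) ↔ Sol n t (ext fun i => (P i).rep) := by
  constructor
  · refine fun h => ⟨fun k => ?_, fun k => ?_⟩
    · obtain ⟨j, hj⟩ := Function.ne_iff.1 (P k).rep_nonzero
      exact ⟨j, Nat.le_of_lt_succ j.2, by rwa [ext_val]⟩
    · obtain ⟨l, hl⟩ := h k
      refine ⟨l, fun j hj => ?_⟩
      have := congrFun hl ⟨j, Nat.lt_succ_of_le hj⟩
      rwa [contr_eq, Pi.smul_apply, smul_eq_mul, ← ext_val fun i => (P i).rep] at this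
  · intro h k
    obtain ⟨l, hl⟩ := h.2 k
    refine ⟨l, funext fun j => ?_⟩
    rw [contr_eq, Pi.smul_apply, smul_eq_mul, ← ext_val fun i => (P i).rep]
    exact hl j (Nat.le_of_lt_succ j.2)

theorem form_eq {d : ℕ} {n : Fin d → ℕ} (T : (∀ i, Fin (n i + 1)) → ℝ)
    (x : ∀ i, Fin (n i + 1) → ℂ) (k : Fin d) : form T x = ∑ j, x k j * contr T x k j := by
  rw [form, ← Finset.sum_fiberwise univ fun ι : ∀ i, Fin (n i + 1) => ι k]
  refine Finset.sum_congr rfl fun j _ => ?_
  rw [contr, Finset.mul_sum]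
  refine Finset.sum_congr rfl fun ι hι => ?_
  rw [← Finset.mul_prod_erase _ _ (mem_univ k), (mem_filter.1 hι).2]
  ring

/-- For every format, and all small `t > 0`, the tensor `lexT n t` has exactly `c(n)` singular
tuples, all of them real, and the multilinear form is nonzero at each of them. -/
theorem result (d : ℕ) (hd : 2 ≤ d) (n : Fin d → ℕ) (q : Fin d → MvPolynomial (Fin d) ℤ)
    (hq : ∀ k, (∑ i ∈ univ.erase k, MvPolynomial.X i - MvPolynomial.X k) * q k =
      (∑ i ∈ univ.erase k, MvPolynomial.X i) ^ (n k + 1) - MvPolynomial.X k ^ (n k + 1)) :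
    ∃ ε : ℝ, 0 < ε ∧ ∀ t : ℝ, 0 < t → t < ε →
      (singTuples (lexT n t)).Finite ∧
      ((singTuples (lexT n t)).ncard : ℤ) =
        MvPolynomial.coeff (Finsupp.equivFunOnFinite.symm n) (∏ k, q k) ∧
      ∀ P ∈ singTuples (lexT n t),
        (∀ k, IsRealPt (P k)) ∧ form (lexT n t) (fun i => (P i).rep) ≠ 0 := by
  have hD : 0 < d := by omega
  obtain ⟨ε, hε, h⟩ := (nhdsGT_basis (0 : ℝ)).eventually_iff.1
    ((small_words hD n).and (small_ne hD n))
  refine ⟨ε, hε, fun t ht ht' => ?_⟩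
  obtain ⟨⟨X, h1, h2⟩, h3⟩ := h ⟨ht, ht'⟩
  have hX : ∀ i r, (fun j : Fin (n r + 1) => (X i r j : ℂ)) ≠ 0 := by
    intro i r h0
    obtain ⟨l, hl, h4⟩ := ((h1 fun r l => X i r l).2
      ⟨i, fun r => ⟨1, one_ne_zero, fun l _ => (one_mul _).symm⟩⟩).1 r
    exact h4 (congrFun h0 ⟨l, Nat.lt_succ_of_le hl⟩)
  let F := fun i (r : Fin d) => Projectivization.mk ℂ _ (hX i r)
  have hF : Function.Injective F := by
    intro i i' h0
    refine h2 i i' fun r => ?_
    obtain ⟨a, ha⟩ := (Projectivization.mk_eq_mk_iff ℂ _ _ _ _).1 (congrFun h0 r).symm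
    exact ⟨a, a.ne_zero, fun l hl => (congrFun ha ⟨l, Nat.lt_succ_of_le hl⟩).symm⟩
  have hS : singTuples (lexT n t) = Set.range F := by
    ext P
    rw [mem_iff, h1]
    refine exists_congr fun i => ?_
    rw [funext_iff]
    refine forall_congr' fun r => ?_
    rw [eq_comm, ← (P r).mk_rep, Projectivization.mk_eq_mk_iff]
    constructor
    · rintro ⟨c, hc, h4⟩
      refine ⟨Units.mk0 c hc, funext fun j => ?_⟩
      rw [← ext_val fun i => (P i).rep]
      exact (h4 j (Nat.le_of_lt_succ j.2)).symm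
    · rintro ⟨a, ha⟩
      refine ⟨a, a.ne_zero, fun l hl => ?_⟩
      have := congrFun ha ⟨l, Nat.lt_succ_of_le hl⟩
      rw [← ext_val fun i => (P i).rep] at this
      exact this.symm
  refine ⟨hS ▸ Set.finite_range F, ?_, fun P hP => ?_⟩
  · rw [hS, Set.ncard_range_of_injective hF, Nat.card_eq_fintype_card, Fintype.card_coe,
      total_count hD n, Finset.prod_congr rfl fun k _ => quot_eq k (n k) (q k) (hq k)]
  · have hP' := hP
    rw [hS] at hP'
    obtain ⟨i, hi⟩ := hP'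
    refine ⟨fun k => ⟨fun j => X i k j, hX i k, (congrFun hi k).symm⟩, ?_⟩
    let k : Fin d := ⟨0, hD⟩
    obtain ⟨l, hl⟩ := hP k
    obtain ⟨j, hj, h4⟩ := h3 _ ((mem_iff n t P).1 hP) k
    have hl0 : l ≠ 0 := by
      rintro rfl
      have := congrFun hl ⟨j, Nat.lt_succ_of_le hj⟩
      rw [contr_eq, zero_smul] at this
      exact h4 this
    obtain ⟨a, ha⟩ := Projectivization.exists_smul_eq_mk_rep ℂ _ (hX i k)
    have h5 : ∀ j, (P k).rep j = a * (X i k j : ℂ) := fun j => by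
      rw [← hi]
      exact (congrFun ha j).symm
    have h6 : ∑ j : Fin (n k + 1), X i k j * X i k j ≠ 0 := by
      intro h0
      rw [Finset.sum_eq_zero_iff_of_nonneg fun j _ => mul_self_nonneg _] at h0
      exact hX i k (funext fun j => by simpa using h0 j (mem_univ j))
    have h7 : form (lexT n t) (fun i => (P i).rep) =
        l * a * a * ((∑ j : Fin (n k + 1), X i k j * X i k j : ℝ) : ℂ) := by
      rw [form_eq _ _ k, hl, Complex.ofReal_sum, Finset.mul_sum]
      refine Finset.sum_congr rfl fun j _ => ?_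
      rw [Pi.smul_apply, smul_eq_mul, h5, Complex.ofReal_mul]
      ring
    rw [h7]
    exact mul_ne_zero (mul_ne_zero (mul_ne_zero hl0 a.ne_zero) a.ne_zero)
      (Complex.ofReal_ne_zero.2 h6)

end Pool.Agent.Results.MP_a18d4e_ag.LexTensor
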